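import Pool.Agent.K1H35.JA.Stm

set_option autoImplicit false

/-! Project JA, pieces CMP and PUMP (helper85) -/

namespace Pool.Agent.K1H85.JA

open Finset Pool.Agent.K1H35.JA

theorem dot_shift {k : ℕ} (a : Fin k → ℤ) (x : Fin k → ℕ) (Λ : ℕ) (i : Fin k) :
    a ⬝ᵥ cz (x + Λ • e i) = a ⬝ᵥ cz x + a i * (Λ : ℤ) := by
  have h1 : cz (x + Λ • e i) = cz x + (Λ : ℤ) • Pi.single i (1 : ℤ) := by
    funext j
    by_cases h : j = i
    · subst h
      simp [cz, e]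
    · simp [cz, e, h]
  rw [h1, dotProduct_add, dotProduct_smul, dotProduct_single, mul_one, smul_eq_mul, mul_comm]

theorem t_CMP : S_CMP := by
  intro k M C Λ x v i h
  constructor
  · intro a ha
    obtain ⟨h1, h2⟩ := h a ha
    have hMΛ : (0 : ℤ) ≤ (M : ℤ) * (Λ : ℤ) := by positivity
    push_cast at h1 h2
    refine ⟨fun h3 => h1 (by linarith), fun h3 => ?_⟩
    by_cases h4 : a ⬝ᵥ cz x ≤ (C : ℤ) + M * Λ
    · rw [h1 (abs_le.mpr ⟨by
        have : (0 : ℤ) ≤ C := by positivity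
        linarith, h4⟩)]
    · exact h2 (not_le.mp h4)
  · intro a ha
    obtain ⟨h1, h2⟩ := h a ha
    rw [dot_shift]
    push_cast at h1 h2
    have hC : (0 : ℤ) ≤ C := by positivity
    have hΛ : (0 : ℤ) ≤ Λ := by positivity
    have h5 := abs_le.mp (ha i)
    have h6 : a i * (Λ : ℤ) ≤ M * Λ := mul_le_mul_of_nonneg_right h5.2 hΛ
    have h7 : -((M : ℤ) * Λ) ≤ a i * (Λ : ℤ) := by
      have := mul_le_mul_of_nonneg_right h5.1 hΛ
      linarith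
    refine ⟨fun h3 => ?_, fun h3 => ?_⟩
    · have h8 := abs_le.mp h3
      exact h1 (abs_le.mpr ⟨by linarith, by linarith⟩)
    · by_cases h4 : a ⬝ᵥ cz x ≤ (C : ℤ) + M * Λ
      · rw [h1 (abs_le.mpr ⟨by linarith, h4⟩)]
      · exact h2 (not_le.mp h4)

theorem t_PUMP (hS : S_SEMI) (hC : S_CARA) (hM : S_MEM) (hK : S_CMP) (hL : S_LP) : S_PUMP := by
  intro n k A i Λ x hx
  have hn : 1 ≤ n := lt_of_le_of_lt (Nat.zero_le _) A.start.isLt
  have hM1 : 1 ≤ M1 k n := by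
    unfold M1
    exact Nat.mul_pos (Nat.factorial_pos k) (Nat.pow_pos hn)
  obtain ⟨F, hF1, hF2⟩ := hS n k A
  obtain ⟨v0, hv0, hcomp⟩ := hL k (M1 k n) (CB k n + M1 k n * Λ) x i hM1
    (by unfold CB; omega) hx
  obtain ⟨hc1, hc2⟩ := hK k (M1 k n) (CB k n) Λ x v0 i hcomp
  have key : ∀ x' : Fin k → ℕ, Comp k (M1 k n) (CB k n) (cz x') (cz v0) → ∀ t : ℕ,
      (x' ∈ SA A ↔ x' + (t * (M1 k n).factorial) • v0 ∈ SA A) := by
    intro x' hx' t
    have hmem : ∀ (z : (Fin k → ℕ) × Set (Fin k → ℕ)), z ∈ F → ∀ (Q : Finset (Fin k → ℕ))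
        (r : Fin k → ℕ), (Q : Set (Fin k → ℕ)) ⊆ z.2 →
        LinearIndependent ℤ (fun p : Q => cz (p : Fin k → ℕ)) → (∀ j, r j ≤ R0 k n) →
        ((∃ c : (Fin k → ℕ) → ℕ, x' = z.1 + r + ∑ p ∈ Q, c p • p) ↔
          ∃ c : (Fin k → ℕ) → ℕ, x' + (t * (M1 k n).factorial) • v0 =
            z.1 + r + ∑ p ∈ Q, c p • p) := by
      intro z hz Q r hQ hli hr
      refine hM k n ((n + 1) ^ 2 + R0 k n) (CB k n) (M1 k n).factorial t Q (z.1 + r) x' v0 hn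
        (fun p hp => (hF1 z hz).2 p (hQ hp)) hli (fun j => ?_) (by unfold CB; omega)
        (fun d hd hd' => Nat.dvd_factorial hd hd') hx'
      have h1 := (hF1 z hz).1 j
      have h2 := hr j
      rw [Pi.add_apply]
      omega
    have hback : ∀ (z : (Fin k → ℕ) × Set (Fin k → ℕ)) (Q : Finset (Fin k → ℕ))
        (r : Fin k → ℕ) (c : (Fin k → ℕ) → ℕ), (Q : Set (Fin k → ℕ)) ⊆ z.2 →
        r ∈ AddSubmonoid.closure z.2 → r + ∑ p ∈ Q, c p • p ∈ AddSubmonoid.closure z.2 := by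
      intro z Q r c hQ hr
      exact add_mem hr (sum_mem fun p hp =>
        nsmul_mem (AddSubmonoid.subset_closure (hQ hp)) _)
    constructor
    · intro h
      obtain ⟨z, hz, y, hy, hxy⟩ := (hF2 x').mp h
      obtain ⟨Q, r, c, hQ, hli, hr, hr', hyr⟩ := hC k n z.2 hn (hF1 z hz).2 y hy
      obtain ⟨c', hc'⟩ := (hmem z hz Q r hQ hli hr').mp ⟨c, by rw [hxy, hyr, add_assoc]⟩
      exact (hF2 _).mpr ⟨z, hz, _, hback z Q r c' hQ hr, by rw [hc', add_assoc]⟩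
    · intro h
      obtain ⟨z, hz, y, hy, hxy⟩ := (hF2 _).mp h
      obtain ⟨Q, r, c, hQ, hli, hr, hr', hyr⟩ := hC k n z.2 hn (hF1 z hz).2 y hy
      obtain ⟨c', hc'⟩ := (hmem z hz Q r hQ hli hr').mpr ⟨c, by rw [hxy, hyr, add_assoc]⟩
      exact (hF2 _).mpr ⟨z, hz, _, hback z Q r c' hQ hr, by rw [hc', add_assoc]⟩
  refine ⟨(M1 k n).factorial • v0, ?_, fun t => ?_⟩
  · rw [Pi.smul_apply, smul_eq_mul]
    exact Nat.mul_pos (Nat.factorial_pos _) hv0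
  · rw [smul_smul]
    exact ⟨key x hc1 t, key _ hc2 t⟩

end Pool.Agent.K1H85.JA
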